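import Pool.Agent.CYE.StmtsB
import Pool.Agent.CYE.StmtsD

/-!
# Squad CYE (MP_734b60_nt), row COL: the coefficients of the iterated differences
-/

set_option autoImplicit false

open Polynomial IsLocalRing

namespace Pool.Agent.CYE.H87

open Pool.Agent.CYD Pool.Agent.CYE

/-- the power series of `f (x X)` -/
theorem coe_comp {L : Type} [Field L] (f : L[X]) (x : L) :
    ((f.comp (C x * X) : L[X]) : PowerSeries L) = PowerSeries.rescale x (f : PowerSeries L) := by
  ext n
  rw [Polynomial.coeff_coe, Polynomial.comp_C_mul_X_coeff, PowerSeries.coeff_rescale,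
    Polynomial.coeff_coe, mul_comm]

/-- the power series `A / B` -/
noncomputable def qt {L : Type} [Field L] (A B : L[X]) : PowerSeries L :=
  (A : PowerSeries L) * (B : PowerSeries L)⁻¹

theorem inv_mul_self' {L : Type} [Field L] (B : L[X]) (h : B.coeff 0 ≠ 0) :
    (B : PowerSeries L)⁻¹ * (B : PowerSeries L) = 1 := by
  apply PowerSeries.inv_mul_cancel
  rw [Polynomial.constantCoeff_coe]
  exact h

theorem qt_mul {L : Type} [Field L] (A B : L[X]) (h : B.coeff 0 ≠ 0) :
    qt A B * (B : PowerSeries L) = A := by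
  unfold qt
  rw [mul_assoc, inv_mul_self' B h, mul_one]

theorem qt_unique {L : Type} [Field L] (A B : L[X]) (h : B.coeff 0 ≠ 0) (F : PowerSeries L)
    (hF : F * (B : PowerSeries L) = A) : F = qt A B := by
  unfold qt
  rw [← hF, mul_assoc, mul_comm (B : PowerSeries L), inv_mul_self' B h, mul_one]

theorem coeff_qt_comp {L : Type} [Field L] (A B : L[X]) (h : B.coeff 0 ≠ 0) (x : L) (k : ℕ) :
    PowerSeries.coeff k (qt (A.comp (C x * X)) (B.comp (C x * X))) =
      x ^ k * PowerSeries.coeff k (qt A B) := by
  have h0 : (B.comp (C x * X)).coeff 0 ≠ 0 := by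
    rw [Polynomial.comp_C_mul_X_coeff, pow_zero, mul_one]
    exact h
  have e : PowerSeries.rescale x (qt A B) = qt (A.comp (C x * X)) (B.comp (C x * X)) := by
    apply qt_unique _ _ h0
    rw [coe_comp, coe_comp, ← map_mul, qt_mul A B h]
  rw [← e, PowerSeries.coeff_rescale]

variable {ι : Type} [Fintype ι] [DecidableEq ι]

theorem shS_sh {q : ι → ℕ} {i : ι} {S : Finset ι} (hi : i ∉ S) (s b : Pt q) :
    shS S s (sh i s b) = shS (insert i S) s b := by
  funext j
  unfold shS sh
  by_cases h1 : j = i
  · subst h1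
    simp [hi]
  · simp [h1]

/-- the iterated differences as an alternating sum -/
theorem alt {q : ι → ℕ} {L : Type} [Field L] (A B : Pt q → L[X])
    (hB : ∀ b, (B b).coeff 0 ≠ 0) (s : Pt q) : ∀ (lg : List ι), lg.Nodup → ∀ b : Pt q,
    (NP A B (lg.map (fun i => (i, false))) b s).2.coeff 0 ≠ 0 ∧
    qt (NP A B (lg.map (fun i => (i, false))) b s).1 (NP A B (lg.map (fun i => (i, false))) b s).2 =
      (-1) ^ lg.length * ∑ S ∈ lg.toFinset.powerset,
        (-1) ^ S.card * qt (A (shS S s b)) (B (shS S s b))
  | [], _, b => by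
    refine ⟨hB b, ?_⟩
    have e : shS (∅ : Finset ι) s b = b := by
      funext j
      simp [shS]
    simp only [List.map_nil, NP, List.length_nil, List.toFinset_nil, Finset.powerset_empty,
      Finset.sum_singleton, Finset.card_empty, pow_zero, one_mul, e]
  | i :: t, hnd, b => by
    obtain ⟨hi, ht⟩ := List.nodup_cons.1 hnd
    obtain ⟨c1, e1⟩ := alt A B hB s t ht (sh i s b)
    obtain ⟨c2, e2⟩ := alt A B hB s t ht b
    have hi' : i ∉ t.toFinset := by
      rw [List.mem_toFinset]
      exact hi
    have hc : (NP A B ((i :: t).map (fun i => (i, false))) b s).2.coeff 0 ≠ 0 := by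
      show ((NP A B (t.map (fun i => (i, false))) (sh i s b) s).2 *
        (NP A B (t.map (fun i => (i, false))) b s).2).coeff 0 ≠ 0
      rw [Polynomial.mul_coeff_zero]
      exact mul_ne_zero c1 c2
    refine ⟨hc, ?_⟩
    have hq : qt (NP A B ((i :: t).map (fun i => (i, false))) b s).1
        (NP A B ((i :: t).map (fun i => (i, false))) b s).2 =
        qt (NP A B (t.map (fun i => (i, false))) (sh i s b) s).1
          (NP A B (t.map (fun i => (i, false))) (sh i s b) s).2 -
        qt (NP A B (t.map (fun i => (i, false))) b s).1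
          (NP A B (t.map (fun i => (i, false))) b s).2 := by
      symm
      apply qt_unique _ _ hc
      show _ * ((((NP A B (t.map (fun i => (i, false))) (sh i s b) s).2 *
        (NP A B (t.map (fun i => (i, false))) b s).2 : L[X])) : PowerSeries L) =
        (((NP A B (t.map (fun i => (i, false))) (sh i s b) s).1 *
          (NP A B (t.map (fun i => (i, false))) b s).2 -
          (NP A B (t.map (fun i => (i, false))) b s).1 *
          (NP A B (t.map (fun i => (i, false))) (sh i s b) s).2 : L[X]) : PowerSeries L)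
      have m1 := qt_mul (NP A B (t.map (fun i => (i, false))) (sh i s b) s).1 _ c1
      have m2 := qt_mul (NP A B (t.map (fun i => (i, false))) b s).1 _ c2
      rw [Polynomial.coe_sub, Polynomial.coe_mul, Polynomial.coe_mul, Polynomial.coe_mul]
      linear_combination
        (((NP A B (t.map (fun i => (i, false))) b s).2 : L[X]) : PowerSeries L) * m1 -
        (((NP A B (t.map (fun i => (i, false))) (sh i s b) s).2 : L[X]) : PowerSeries L) * m2
    rw [hq, e1, e2, List.toFinset_cons, Finset.sum_powerset_insert hi', List.length_cons]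
    have e3 : ∑ S ∈ t.toFinset.powerset, (-1 : PowerSeries L) ^ (insert i S).card *
        qt (A (shS (insert i S) s b)) (B (shS (insert i S) s b)) =
        - ∑ S ∈ t.toFinset.powerset, (-1) ^ S.card *
          qt (A (shS S s (sh i s b))) (B (shS S s (sh i s b))) := by
      rw [← Finset.sum_neg_distrib]
      refine Finset.sum_congr rfl fun S hS => ?_
      have hiS : i ∉ S := fun h => hi' (Finset.mem_powerset.1 hS h)
      rw [shS_sh hiS, Finset.card_insert_of_notMem hiS]
      ring
    rw [e3]
    ring

/-- a vanishing logarithmic derivative -/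
theorem coeff_zero_of_w1 {L : Type} [Field L] (p : ℕ) [CharP L p] (N P : L[X])
    (hP : P.coeff 0 ≠ 0) (h : w1 N P = 0) (k : ℕ) (hk : ¬ p ∣ k) :
    PowerSeries.coeff k (qt N P) = 0 := by
  have hX : (X : L[X]) * (derivative N * P - N * derivative P) = 0 := by
    unfold w1 dX at h
    linear_combination h
  have h1 : derivative N * P - N * derivative P = 0 := by
    rcases mul_eq_zero.1 hX with h2 | h2
    · exact absurd h2 X_ne_zero
    · exact h2
  have hm := qt_mul N P hP
  have hd := congrArg (PowerSeries.derivative L) hm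
  rw [Derivation.leibniz, PowerSeries.derivative_coe, PowerSeries.derivative_coe,
    smul_eq_mul, smul_eq_mul] at hd
  have h1' : ((derivative N : L[X]) : PowerSeries L) * (P : PowerSeries L) -
      (N : PowerSeries L) * ((derivative P : L[X]) : PowerSeries L) = 0 := by
    rw [← Polynomial.coe_mul, ← Polynomial.coe_mul, ← Polynomial.coe_sub, h1, Polynomial.coe_zero]
  have h3 : PowerSeries.derivative L (qt N P) * ((P : PowerSeries L) * (P : PowerSeries L)) = 0 := by
    linear_combination (P : PowerSeries L) * hd + h1' -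
      ((derivative P : L[X]) : PowerSeries L) * hm
  have hP0 : (P : PowerSeries L) ≠ 0 := by
    intro h0
    apply hP
    rw [← Polynomial.coeff_coe, h0, map_zero]
  have h4 : PowerSeries.derivative L (qt N P) = 0 := by
    rcases mul_eq_zero.1 h3 with h5 | h5
    · exact h5
    · exact absurd h5 (mul_ne_zero hP0 hP0)
  obtain _ | n := k
  · exact absurd (dvd_zero p) hk
  · have h6 := PowerSeries.coeff_derivative (R := L) (qt N P) n
    rw [h4, map_zero] at h6
    rcases mul_eq_zero.1 h6.symm with h7 | h7
    · exact h7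
    · exfalso
      apply hk
      rw [← CharP.cast_eq_zero_iff L p]
      push_cast
      exact h7

theorem col (hEVL : EvlStmt) (hAFF : AffStmt) : ColStmt := by
  intro ι _ _ q _ p m g h L _ a α hS lg hnd b s hZ k hk
  haveI := hS.chr
  obtain ⟨-, hev, -⟩ := hEVL ι q L α hS.pri hS.inj
  obtain ⟨-, hD0, -⟩ := hAFF p m g h hS.F L
  have hB : ∀ b : Pt q, (Bx m (ev α b)).coeff 0 ≠ 0 := by
    intro b
    unfold Bx
    rw [Polynomial.comp_C_mul_X_coeff, pow_zero, mul_one]
    exact hD0
  obtain ⟨c1, e1⟩ := alt (fun b => Ax m g h (ev α b)) (fun b => Bx m (ev α b)) hB s lg hnd b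
  have hZ' : w1 (NP (fun b => Ax m g h (ev α b)) (fun b => Bx m (ev α b))
      (lg.map (fun i => (i, false))) b s).1 (NP (fun b => Ax m g h (ev α b))
      (fun b => Bx m (ev α b)) (lg.map (fun i => (i, false))) b s).2 = 0 := hZ
  have h1 := coeff_zero_of_w1 p _ _ c1 hZ' k hk
  rw [e1] at h1
  have e2 : ((-1 : PowerSeries L)) ^ lg.length = PowerSeries.C ((-1 : L) ^ lg.length) := by
    rw [map_pow, map_neg, map_one]
  rw [e2, PowerSeries.coeff_C_mul, map_sum] at h1
  have h2 : ((-1 : L) ^ lg.length) ≠ 0 := pow_ne_zero _ (neg_ne_zero.2 one_ne_zero)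
  have h3 := (mul_eq_zero.1 h1).resolve_left h2
  rw [← h3]
  refine Finset.sum_congr rfl fun S _ => ?_
  have e3 : ((-1 : PowerSeries L)) ^ S.card = PowerSeries.C ((-1 : L) ^ S.card) := by
    rw [map_pow, map_neg, map_one]
  rw [e3, PowerSeries.coeff_C_mul]
  congr 1
  have e4 := coeff_qt_comp (Am L m g h (ty g h (ev α (shS S s b))) (ty g h (ev α (shS S s b))⁻¹))
    (Dl L m) hD0 (ev α (shS S s b)) k
  unfold Ax Bx
  rw [e4]
  unfold tt co qt
  rw [(hev (shS S s b)).2.2]

end Pool.Agent.CYE.H87
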